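import Pool.Agent.helper5.IH.Spec

/-! Row EMB: the matching of the word. -/

set_option autoImplicit false

namespace Pool.Agent.IH
open Finset CT SYM

section
variable {V : Type}

theorem EMB_q {m : ℕ} {q : ℕ → V} (per : ∀ i, q (i + m) = q i) {i j : ℕ} (h : i % m = j % m) : q i = q j := by
  have h1 : ∀ k n, q (k + m * n) = q k := by
    intro k n
    induction n with
    | zero => simp
    | succ n ih =>
      have : k + m * (n + 1) = k + m * n + m := by ring
      rw [this, per, ih]
  have h2 : ∀ i, q i = q (i % m) := by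
    intro i
    have := h1 (i % m) (i / m)
    rw [Nat.mod_add_div] at this
    exact this
  rw [h2 i, h2 j, h]

theorem EMB_in {m : ℕ} {q : ℕ → V} (per : ∀ i, q (i + m) = q i) (a : V → ℕ) {i j : ℕ} (h : i % m = j % m) :
    inD m q a i = inD m q a j := by
  unfold inD
  rw [EMB_q per h, h]

theorem EMB_out {m : ℕ} {q : ℕ → V} (per : ∀ i, q (i + m) = q i) (a : V → ℕ) {i j : ℕ} (h : i % m = j % m) :
    outD m q a i = outD m q a j := by
  unfold outD
  rw [EMB_q per h, h]

/-- The matching. -/
def EMB_e (m : ℕ) (q : ℕ → V) (a b : V → ℕ) (d : V × Fin 4) : V × Fin 4 :=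
  if d.2 = 0 then outD m q a (a d.1 + m - 1)
  else if d.2 = 1 then inD m q a (a d.1 + 1)
  else if d.2 = 2 then inD m q a (b d.1 + 1)
  else outD m q a (b d.1 + m - 1)

theorem EMB_pos {m : ℕ} {q : ℕ → V} {a b : V → ℕ} (hm : 0 < m) (per : ∀ i, q (i + m) = q i) (hP : Pos m q a b)
    (i : ℕ) : (i % m = a (q i)) ∨ (i % m = b (q i) ∧ i % m ≠ a (q i)) := by
  have h1 := hP.uni (i % m) (Nat.mod_lt _ hm)
  have h2 : q (i % m) = q i := EMB_q per (Nat.mod_mod _ _)
  rw [h2] at h1
  rcases h1 with h1 | h1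
  · exact Or.inl h1
  · by_cases h3 : i % m = a (q i)
    · exact Or.inl h3
    · exact Or.inr ⟨h1, h3⟩

theorem EMB_e_out {m : ℕ} {q : ℕ → V} {a b : V → ℕ} (hm : 0 < m) (per : ∀ i, q (i + m) = q i) (hP : Pos m q a b)
    (i : ℕ) : EMB_e m q a b (outD m q a i) = inD m q a (i + 1) := by
  rcases EMB_pos hm per hP i with h | ⟨h, h'⟩
  · have h1 : outD m q a i = (q i, 1) := by
      unfold outD
      rw [if_pos h]
    rw [h1]
    unfold EMB_e
    rw [if_neg (by simp), if_pos rfl]
    apply EMB_in per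
    change (a (q i) + 1) % m = (i + 1) % m
    rw [← h]
    simp [Nat.add_mod]
  · have h1 : outD m q a i = (q i, 2) := by
      unfold outD
      rw [if_neg h']
    rw [h1]
    unfold EMB_e
    rw [if_neg (by simp), if_neg (by simp), if_pos rfl]
    apply EMB_in per
    change (b (q i) + 1) % m = (i + 1) % m
    rw [← h]
    simp [Nat.add_mod]

theorem EMB_arith {m i : ℕ} (hm : 0 < m) : ((i + 1) % m + m - 1) % m = i % m := by
  have h1 : (i + 1) % m + m - 1 = (i + 1) % m + (m - 1) := by omega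
  rw [h1]
  have h2 : ((i + 1) % m + (m - 1)) % m = ((i + 1) + (m - 1)) % m := by simp [Nat.add_mod]
  rw [h2]
  have h3 : (i + 1) + (m - 1) = i + m := by omega
  rw [h3, Nat.add_mod_right]

theorem EMB_e_in {m : ℕ} {q : ℕ → V} {a b : V → ℕ} (hm : 0 < m) (per : ∀ i, q (i + m) = q i) (hP : Pos m q a b)
    (i : ℕ) : EMB_e m q a b (inD m q a (i + 1)) = outD m q a i := by
  rcases EMB_pos hm per hP (i + 1) with h | ⟨h, h'⟩
  · have h1 : inD m q a (i + 1) = (q (i + 1), 0) := by
      unfold inD
      rw [if_pos h]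
    rw [h1]
    unfold EMB_e
    rw [if_pos rfl]
    apply EMB_out per
    change (a (q (i + 1)) + m - 1) % m = i % m
    rw [← h]
    exact EMB_arith hm
  · have h1 : inD m q a (i + 1) = (q (i + 1), 3) := by
      unfold inD
      rw [if_neg h']
    rw [h1]
    unfold EMB_e
    rw [if_neg (by simp), if_neg (by simp), if_neg (by simp)]
    apply EMB_out per
    change (b (q (i + 1)) + m - 1) % m = i % m
    rw [← h]
    exact EMB_arith hm

theorem EMB_cases {m : ℕ} {q : ℕ → V} {a b : V → ℕ} (hm : 0 < m) (per : ∀ i, q (i + m) = q i) (hP : Pos m q a b)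
    (d : V × Fin 4) : ∃ i, d = outD m q a i ∨ d = inD m q a (i + 1) := by
  obtain ⟨v, k⟩ := d
  have hlt := hP.lt v
  have hval := hP.val v
  have ha : a v % m = a v := Nat.mod_eq_of_lt (by omega)
  have hb : b v % m = b v := Nat.mod_eq_of_lt (by omega)
  have hin : ∀ j, inD m q a (j + m - 1 + 1) = inD m q a j := by
    intro j
    apply EMB_in per
    have : j + m - 1 + 1 = j + m := by omega
    rw [this, Nat.add_mod_right]
  fin_cases k
  · refine ⟨a v + m - 1, Or.inr ?_⟩
    rw [hin]
    unfold inD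
    rw [hval.1, if_pos ha]
    rfl
  · refine ⟨a v, Or.inl ?_⟩
    unfold outD
    rw [hval.1, if_pos ha]
    rfl
  · refine ⟨b v, Or.inl ?_⟩
    unfold outD
    rw [hval.2, if_neg (by rw [hb]; omega)]
    rfl
  · refine ⟨b v + m - 1, Or.inr ?_⟩
    rw [hin]
    unfold inD
    rw [hval.2, if_neg (by rw [hb]; omega)]
    rfl

end

theorem EMB : EMB_stmt := by
  intro V _ _ G m q a b h4 hE hP
  have hm := hE.pos
  have per := hE.per
  have hout := EMB_e_out hm per hP
  have hin := EMB_e_in hm per hP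
  have hadj : ∀ d : V × Fin 4, G.Adj d.1 (EMB_e m q a b d).1 := by
    intro d
    obtain ⟨i, h | h⟩ := EMB_cases hm per hP d
    · rw [h, hout]
      exact hE.adj i
    · rw [h, hin]
      exact (hE.adj i).symm
  have hsur : ∀ u w, G.Adj u w → ∃ i, (EMB_e m q a b (u, i)).1 = w := by
    intro u w huw
    obtain ⟨i, -, hi⟩ := hE.sur u w huw
    rw [Sym2.eq_iff] at hi
    rcases hi with ⟨h1, h2⟩ | ⟨h1, h2⟩
    · refine ⟨(outD m q a i).2, ?_⟩
      have : (u, (outD m q a i).2) = outD m q a i := by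
        rw [← h1]
        rfl
      rw [this, hout]
      exact h2
    · refine ⟨(inD m q a (i + 1)).2, ?_⟩
      have : (u, (inD m q a (i + 1)).2) = inD m q a (i + 1) := by
        rw [← h2]
        rfl
      rw [this, hin]
      exact h1
  refine ⟨EMB_e m q a b, hout, hin, ⟨?_, ?_⟩, fun u i => hadj (u, i), hsur, ?_⟩
  · intro d
    obtain ⟨i, h | h⟩ := EMB_cases hm per hP d
    · rw [h, hout, hin]
    · rw [h, hin, hout]
  · intro d
    constructor
    · intro _
      unfold dts
      simp
    · intro _ h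
      have := hadj d
      rw [h] at this
      exact G.irrefl this
  · intro u i j hij
    let f : Fin 4 → {w // G.Adj u w} := fun i => ⟨(EMB_e m q a b (u, i)).1, hadj (u, i)⟩
    have hf : Function.Surjective f := by
      rintro ⟨w, hw⟩
      obtain ⟨i, hi⟩ := hsur u w hw
      exact ⟨i, Subtype.ext hi⟩
    have hb := hf.bijective_of_nat_card_le (by rw [h4 u]; simp)
    exact hb.1 (Subtype.ext hij)

end Pool.Agent.IH
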